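import Pool.Agent.Y667.RZ.Stm
import Pool.Agent.Y285.RP.CV
import Pool.Agent.Y155.RP.RK2

/-!
# Job 461 (helper285): from pairs to curves, rank zero
-/

set_option autoImplicit false

namespace Pool.Agent.Y285.RZ

open Finset Pool.Agent.W262.RK Pool.Agent.W307.RT Pool.Agent.W307.RS Pool.Agent.W307.SE
  Pool.Agent.W307.FK Pool.Agent.Y667.RP Pool.Agent.Y667.RZ
open Pool.Agent.W29.RT (top_root abs_le_cube abs_le_sq)
open Pool.Agent.Y285.RP

/-- minimality of the curve of `(a, b)` and of its twist by 17 -/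
def Mn (c : ℤ × ℤ) : Prop := ∀ p : ℕ, p.Prime → ¬ ((p : ℤ) ^ 4 ∣ c.1 ∧ (p : ℤ) ^ 6 ∣ c.2)

lemma mn1 {a b k : ℤ} (h : a + b = 3 * k) (hc : IsCoprime a b) : Mn (cc a b k) := by
  intro p hp hh
  exact cc_min h hc hp ((dvd_pow_self _ (by norm_num)).trans hh.1)
    ((dvd_pow_self _ (by norm_num)).trans hh.2)

lemma cc17_1 (a b k : ℤ) : (cc (17 * a) (17 * b) (17 * k)).1 = 17 ^ 2 * (cc a b k).1 := by
  unfold cc; ring

lemma cc17_2 (a b k : ℤ) : (cc (17 * a) (17 * b) (17 * k)).2 = 17 ^ 3 * (cc a b k).2 := by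
  unfold cc; ring

lemma mn17 {a b k : ℤ} (h : a + b = 3 * k) (hc : IsCoprime a b) (ha : a % 17 = 1)
    (hb : b % 17 = 15) : Mn (cc (17 * a) (17 * b) (17 * k)) := by
  intro p hp hh
  rw [cc17_1, cc17_2] at hh
  obtain ⟨h1, h2⟩ := hh
  have h17 : Nat.Prime 17 := by norm_num
  by_cases hp17 : p = 17
  · subst hp17
    have h3 : ((17 : ℕ) : ℤ) ^ 6 = 17 ^ 3 * 17 ^ 3 := by norm_num
    rw [h3] at h2
    have h4 : (17 : ℤ) ^ 3 ∣ (cc a b k).2 := Int.dvd_of_mul_dvd_mul_left (by norm_num) h2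
    have h5 : (17 : ℤ) ∣ k * (a - k) * (b - k) := (dvd_pow_self _ (by norm_num)).trans h4
    have hpI : Prime (17 : ℤ) := Nat.prime_iff_prime_int.1 h17
    rcases hpI.dvd_or_dvd h5 with h6 | h6
    · rcases hpI.dvd_or_dvd h6 with h7 | h7
      · omega
      · omega
    · omega
  · have hcop : IsCoprime (p : ℤ) (17 : ℤ) := by
      have : Nat.Coprime p 17 := (Nat.coprime_primes hp h17).2 hp17
      exact_mod_cast Nat.isCoprime_iff_coprime.2 this
    have h3 : (p : ℤ) ∣ (cc a b k).1 :=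
      (hcop.pow_right (n := 2)).dvd_of_dvd_mul_left ((dvd_pow_self _ (by norm_num)).trans h1)
    have h4 : (p : ℤ) ∣ (cc a b k).2 :=
      (hcop.pow_right (n := 3)).dvd_of_dvd_mul_left ((dvd_pow_self _ (by norm_num)).trans h2)
    exact cc_min h hc hp h3 h4

theorem cc_mem' {X H : ℕ} {a b k : ℤ} (h : a + b = 3 * k) (hb : 1 ≤ b) (hab : b < a)
    (haX : a ≤ X) (hmn : Mn (cc a b k)) (hH : 64 * X ^ 6 ≤ H) : cc a b k ∈ Cv 2 H := by
  have hHI : 64 * (X : ℤ) ^ 6 ≤ H := by exact_mod_cast hH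
  set S : ℤ := (X : ℤ) with hS
  have hS0 : 0 < S := by linarith
  have hcf1 : (cc a b k).1 = a * b - 3 * k ^ 2 := rfl
  have hcf2 : (cc a b k).2 = k * (a - k) * (b - k) := rfl
  have hk0 : 0 < k := by linarith
  have hkS : k ≤ S := by linarith
  have hA : |(cc a b k).1| ≤ 2 * S ^ 2 := by
    rw [hcf1, abs_le]
    have e : 3 * (a * b - 3 * k ^ 2) = -(a ^ 2 - a * b + b ^ 2) := by
      have hk : 3 * k = a + b := h.symm
      have : 9 * k ^ 2 = (a + b) ^ 2 := by rw [← hk]; ring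
      linear_combination (-1) * this
    constructor
    · nlinarith
    · nlinarith
  have hB : |(cc a b k).2| ≤ S ^ 3 := by
    rw [hcf2, abs_mul, abs_mul]
    have e1 : |k| ≤ S := by rw [abs_le]; constructor <;> linarith
    have e2 : |a - k| ≤ S := by rw [abs_le]; constructor <;> linarith
    have e3 : |b - k| ≤ S := by rw [abs_le]; constructor <;> linarith
    calc |k| * |a - k| * |b - k|
        ≤ S * S * S := by gcongr
      _ = S ^ 3 := by ring
  have hS6 : 0 ≤ S ^ 6 := by positivity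
  have hA3 : 4 * |(cc a b k).1| ^ 3 ≤ H := by
    calc 4 * |(cc a b k).1| ^ 3 ≤ 4 * (2 * S ^ 2) ^ 3 := by gcongr
      _ = 32 * S ^ 6 := by ring
      _ ≤ H := by linarith
  have hB2 : 27 * (cc a b k).2 ^ 2 ≤ H := by
    calc 27 * (cc a b k).2 ^ 2 = 27 * |(cc a b k).2| ^ 2 := by rw [sq_abs]
      _ ≤ 27 * (S ^ 3) ^ 2 := by gcongr
      _ = 27 * S ^ 6 := by ring
      _ ≤ H := by linarith
  unfold Cv
  simp only [mem_filter, mem_product, mem_Icc]
  have a1 := abs_le_cube (cc a b k).1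
  have a2 := abs_le_sq (cc a b k).2
  have a3 := neg_abs_le (cc a b k).1
  have a4 := le_abs_self (cc a b k).1
  have a5 := neg_abs_le (cc a b k).2
  have a6 := le_abs_self (cc a b k).2
  have a7 : 0 ≤ |(cc a b k).1| ^ 3 := by positivity
  have a8 : 0 ≤ (cc a b k).2 ^ 2 := by positivity
  have ha0 : a ≠ 0 := by intro h; linarith
  have hb0 : b ≠ 0 := by intro h; linarith
  have hab0 : a - b ≠ 0 := by intro h; linarith
  refine ⟨⟨⟨by linarith, by linarith⟩, ⟨by linarith, by linarith⟩⟩, ?_, hA3, hB2, ?_, ?_⟩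
  · rw [cc_disc h]
    have : 0 < a ^ 2 * b ^ 2 * (a - b) ^ 2 := by positivity
    intro h
    linarith
  · exact hmn
  · have hk : (k : ℚ) = ((a : ℚ) + b) / 3 := by
      have : (a : ℚ) + b = 3 * k := by exact_mod_cast h
      rw [this]; ring
    apply Pool.Agent.W672.FK.hasT2 (a := (a : ℚ) / 3) (b := (b : ℚ) / 3)
    · rw [hcf1]; push_cast; rw [hk]; ring
    · rw [hcf2]; push_cast; rw [hk]; ring
    · have : (a : ℚ) ≠ 0 := by exact_mod_cast ha0
      positivity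
    · have : (b : ℚ) ≠ 0 := by exact_mod_cast hb0
      positivity
    · have : (a : ℚ) - b ≠ 0 := by exact_mod_cast hab0
      intro h
      apply this
      linarith

/-- the good curves -/
def Tg (c : ℤ × ℤ) : Prop := (SelR c.1 c.2).Finite ∧ (SelR c.1 c.2).ncard ≤ 4 ∧
  Module.finrank ℤ (Sh c.1 c.2).toAffine.Point = 0

theorem tg {a b k : ℤ} (h : a + b = 3 * k) (hb : 1 ≤ b) (hab : b < a)
    (hf : (Sel a b).Finite) (hn : (Sel a b).ncard ≤ 4) : Tg (cc a b k) := by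
  have hD : 4 * (cc a b k).1 ^ 3 + 27 * (cc a b k).2 ^ 2 ≠ 0 := by
    rw [cc_disc h]
    have ha0 : a ≠ 0 := by intro h; linarith
    have hb0 : b ≠ 0 := by intro h; linarith
    have hab0 : a - b ≠ 0 := by intro h; linarith
    have : 0 < a ^ 2 * b ^ 2 * (a - b) ^ 2 := by positivity
    intro h
    linarith
  obtain ⟨h1, h2⟩ := Pool.Agent.W597.SE.selc _ _ _ _ _ a b 1 hD (cc_root h) one_ne_zero
    (by push_cast; ring) (by push_cast; ring) hf
  refine ⟨h1, h2.trans hn, ?_⟩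
  by_contra hr
  have h3 := Pool.Agent.Y155.RP.RK2 _ _ _ _ _ hD (cc_root h) h1 (Nat.one_le_iff_ne_zero.2 hr)
  have h4 : 2 ^ 3 ≤ 2 ^ (Module.finrank ℤ (Sh (cc a b k).1 (cc a b k).2).toAffine.Point + 2) :=
    Nat.pow_le_pow_right (by norm_num) (by omega)
  omega

theorem CVZ : St_CVZ := by
  classical
  rintro ⟨c, hc, X0, hX0⟩
  refine ⟨c / 160000, by positivity, 64 * (17 * max X0 1) ^ 6, fun H hH => ?_⟩
  -- the size
  have hex : ∃ X : ℕ, max X0 1 ≤ X ∧ 64 * (17 * X) ^ 6 ≤ H ∧ H < 64 * (17 * (X + 1)) ^ 6 := by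
    set P : ℕ → Prop := fun X => 64 * (17 * X) ^ 6 ≤ H with hP
    have hle : max X0 1 ≤ H := by
      have h1 : 17 * max X0 1 ≤ (17 * max X0 1) ^ 6 := Nat.le_self_pow (by norm_num) _
      omega
    refine ⟨Nat.findGreatest P H, Nat.le_findGreatest hle hH, ?_, ?_⟩
    · exact Nat.findGreatest_spec (P := P) hle hH
    · by_contra hlt
      push Not at hlt
      have h2 : Nat.findGreatest P H + 1 ≤ H := by
        have h1 : (17 * (Nat.findGreatest P H + 1)) ≤ (17 * (Nat.findGreatest P H + 1)) ^ 6 :=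
          Nat.le_self_pow (by norm_num) _
        omega
      exact Nat.findGreatest_is_greatest (P := P) (Nat.lt_succ_self _) h2 hlt
  obtain ⟨X, hX1, hX2, hX3⟩ := hex
  have hXX0 : X0 ≤ X := (le_max_left _ _).trans hX1
  have hX11 : 1 ≤ X := (le_max_right _ _).trans hX1
  have h1 := hX0 X hXX0
  have h2 : (Cv 2 H).card ≤ (4 * (34 * (X + 1)) + 1) ^ 2 := by
    apply cv_card _ _ (by omega)
    have : (34 * (X + 1)) ^ 6 = 64 * (17 * (X + 1)) ^ 6 := by ring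
    omega
  have h3 : (Cv 2 H).card ≤ 80000 * X ^ 2 := by
    refine h2.trans ?_
    have : 4 * (34 * (X + 1)) + 1 ≤ 273 * X := by omega
    calc (4 * (34 * (X + 1)) + 1) ^ 2 ≤ (273 * X) ^ 2 := by gcongr
      _ = 74529 * X ^ 2 := by ring
      _ ≤ 80000 * X ^ 2 := by gcongr; norm_num
  set G := (Icc 1 X ×ˢ Icc 1 X).filter (GoodZ X) with hG
  set T := (Cv 2 H).filter (fun k : ℤ × ℤ => (SelR k.1 k.2).Finite ∧
      (SelR k.1 k.2).ncard ≤ 4 ∧ Module.finrank ℤ (Sh k.1 k.2).toAffine.Point = 0) with hT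
  set p : ℕ × ℕ → Prop := fun t => (Sel (t.1 : ℤ) (t.2 : ℤ)).Finite ∧
    (Sel (t.1 : ℤ) (t.2 : ℤ)).ncard ≤ 4 with hp
  have facts : ∀ t : ℕ × ℕ, t ∈ G →
      (t.1 : ℤ) + t.2 = 3 * (((t.1 + t.2) / 3 : ℕ) : ℤ) ∧ (1 : ℤ) ≤ t.2 ∧ (t.2 : ℤ) < t.1 ∧
      (t.1 : ℤ) ≤ X ∧ IsCoprime (t.1 : ℤ) (t.2 : ℤ) ∧ (t.1 : ℤ) % 17 = 1 ∧ (t.2 : ℤ) % 17 = 15 ∧
      (((Sel (t.1 : ℤ) (t.2 : ℤ)).Finite ∧ (Sel (t.1 : ℤ) (t.2 : ℤ)).ncard ≤ 4) ∨
      ((Sel (17 * (t.1 : ℤ)) (17 * (t.2 : ℤ))).Finite ∧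
        (Sel (17 * (t.1 : ℤ)) (17 * (t.2 : ℤ))).ncard ≤ 4)) := by
    intro t ht
    rw [hG, mem_filter, mem_product, mem_Icc, mem_Icc] at ht
    obtain ⟨⟨g1, g2⟩, g3, g4, g5, g6, g7, g8, g9, g10, g11, g12⟩ := ht
    exact ⟨by omega, by omega, by omega, by omega, Nat.isCoprime_iff_coprime.2 g11, by omega,
      by omega, g12⟩
  have k1 : (G.filter p).card ≤ T.card := by
    apply card_le_card_of_injOn
      (fun t => cc (t.1 : ℤ) (t.2 : ℤ) (((t.1 + t.2) / 3 : ℕ) : ℤ))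
    · intro t ht
      rw [mem_coe, mem_filter] at ht
      obtain ⟨f1, f2, f3, f4, f5, f6, f7, -⟩ := facts t ht.1
      have hX4 : 64 * X ^ 6 ≤ H := by
        refine le_trans ?_ hX2
        gcongr
        omega
      have hm := cc_mem' f1 f2 f3 f4 (mn1 f1 f5) hX4
      rw [hT, mem_coe, mem_filter]
      exact ⟨hm, tg f1 f2 f3 ht.2.1 ht.2.2⟩
    · intro t ht t' ht' he
      rw [mem_coe, mem_filter] at ht ht'
      obtain ⟨f1, f2, f3, -⟩ := facts t ht.1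
      obtain ⟨f1', f2', f3', -⟩ := facts t' ht'.1
      obtain ⟨r1, r2⟩ := cc_inj f1 f1' f2 f3 f2' f3' he
      exact Prod.ext (by exact_mod_cast r1) (by exact_mod_cast r2)
  have k2 : (G.filter (fun t => ¬ p t)).card ≤ T.card := by
    apply card_le_card_of_injOn
      (fun t => cc (17 * (t.1 : ℤ)) (17 * (t.2 : ℤ)) (17 * (((t.1 + t.2) / 3 : ℕ) : ℤ)))
    · intro t ht
      rw [mem_coe, mem_filter] at ht
      obtain ⟨f1, f2, f3, f4, f5, f6, f7, f8⟩ := facts t ht.1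
      have f9 := f8.resolve_left ht.2
      have q1 : 17 * (t.1 : ℤ) + 17 * t.2 = 3 * (17 * (((t.1 + t.2) / 3 : ℕ) : ℤ)) := by
        linarith
      have hm := cc_mem' (X := 17 * X) q1 (by linarith) (by linarith)
        (by push_cast; linarith) (mn17 f1 f5 f6 f7) hX2
      rw [hT, mem_coe, mem_filter]
      exact ⟨hm, tg q1 (by linarith) (by linarith) f9.1 f9.2⟩
    · intro t ht t' ht' he
      rw [mem_coe, mem_filter] at ht ht'
      obtain ⟨f1, f2, f3, -⟩ := facts t ht.1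
      obtain ⟨f1', f2', f3', -⟩ := facts t' ht'.1
      have q1 : 17 * (t.1 : ℤ) + 17 * t.2 = 3 * (17 * (((t.1 + t.2) / 3 : ℕ) : ℤ)) := by
        linarith
      have q1' : 17 * (t'.1 : ℤ) + 17 * t'.2 = 3 * (17 * (((t'.1 + t'.2) / 3 : ℕ) : ℤ)) := by
        linarith
      obtain ⟨r1, r2⟩ := cc_inj q1 q1' (by linarith) (by linarith) (by linarith) (by linarith) he
      have r1' : (t.1 : ℤ) = t'.1 := by linarith
      have r2' : (t.2 : ℤ) = t'.2 := by linarith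
      exact Prod.ext (by exact_mod_cast r1') (by exact_mod_cast r2')
  have k3 : G.card ≤ 2 * T.card := by
    have := card_filter_add_card_filter_not (s := G) p
    omega
  have h3' : ((Cv 2 H).card : ℝ) ≤ 80000 * (X : ℝ) ^ 2 := by exact_mod_cast h3
  have h4' : (G.card : ℝ) ≤ 2 * (T.card : ℝ) := by exact_mod_cast k3
  have h5 : c / 160000 * ((Cv 2 H).card : ℝ) ≤ c / 160000 * (80000 * (X : ℝ) ^ 2) := by gcongr
  have h6 : c * (X : ℝ) ^ 2 ≤ (G.card : ℝ) := h1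
  have h7 : c / 160000 * (80000 * (X : ℝ) ^ 2) = c * (X : ℝ) ^ 2 / 2 := by ring
  linarith

end Pool.Agent.Y285.RZ
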